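import Pool.Agent.Work.MP_5d318d_nt.Range

set_option autoImplicit false

namespace Pool.Agent.Work.MP_5d318d_nt.Parked.LargeModuli

/-- Unconditionally and uniformly for `1 ≤ Q ≤ X`, the variance `G(X,Q)` equals
`X log Q + o(X log Q) + O(X² / φ(Q))`. -/
theorem result :
    ∃ C : ℝ, ∀ δ : ℝ, 0 < δ → ∃ X₀ : ℝ, ∀ X : ℝ, X₀ ≤ X → ∀ Q : ℕ, 1 ≤ Q → (Q : ℝ) ≤ X →
      |(∑ A ∈ (Finset.range Q).filter (fun A => Nat.Coprime A Q),
          ((∑ n ∈ (Finset.Icc 1 ⌊X⌋₊).filter (fun n => n % Q = A),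
              ArithmeticFunction.vonMangoldt n) - X / (Nat.totient Q : ℝ)) ^ 2)
        - X * Real.log Q| ≤ δ * (X * Real.log Q) + C * (X ^ 2 / (Nat.totient Q : ℝ)) :=
  Pool.Agent.Work.MP_5d318d_nt.range_main

end Pool.Agent.Work.MP_5d318d_nt.Parked.LargeModuli
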